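import Mathlib

/-!
# Two inequivalent extreme subsets of `ℤ / 127 ℤ` of the same size

The supports of two circulant weighing matrices of order `127` and weight `64` (the sets of zeros
of the Walsh transforms of the power functions `x ^ 3` and `x ^ 57` on the field with `128`
elements are their complements) are extreme sets of `64` elements. They are not equivalent.
-/

open Finset

namespace Pool.Agent.Results.MP_6d480e_an.TwoExtremeSets

/-- `E` is extreme: there are complex numbers `c x`, of modulus one for `x ∈ E` and zero for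
`x ∉ E`, such that `μ = ∑ c x δ_x` satisfies `μ * μ~ = |E| δ_0`, that is,
`∑ x, c x * conj (c (x - t))` is `|E|` for `t = 0` and `0` otherwise. -/
def IsExtreme {G : Type} [AddCommGroup G] [Fintype G] [DecidableEq G] (E : Finset G) : Prop :=
  ∃ c : G → ℂ, (∀ x ∈ E, ‖c x‖ = 1) ∧ (∀ x ∉ E, c x = 0) ∧
    ∀ t : G, ∑ x, c x * (starRingEnd ℂ) (c (x - t)) = if t = 0 then (E.card : ℂ) else 0

/-- A function with values in `{0, 1, -1}`, given by the binary digits of two numbers. -/
def tern (P N : ℕ) (x : ZMod 127) : ℤ :=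
  if P.testBit x.val then 1 else if N.testBit x.val then -1 else 0

/-- The first function. -/
def c1 : ZMod 127 → ℤ :=
  tern 144395443378137741935860105331066560641 23967983297652233738373723793576689664

/-- The second function. -/
def c2 : ZMod 127 → ℤ :=
  tern 25307595253328836530604980288239010071 5838254879836793180944993298070110208

lemma corr1 : ∀ t : ZMod 127, ∑ x, c1 x * c1 (x - t) = if t = 0 then 64 else 0 := by
  decide +kernel

lemma corr2 : ∀ t : ZMod 127, ∑ x, c2 x * c2 (x - t) = if t = 0 then 64 else 0 := by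
  decide +kernel

/-- The support of the first function. -/
def E1 : Finset (ZMod 127) := univ.filter fun x => c1 x ≠ 0

/-- The support of the second function. -/
def E2 : Finset (ZMod 127) := univ.filter fun x => c2 x ≠ 0

lemma card1 : E1.card = 64 := by decide +kernel

lemma card2 : E2.card = 64 := by decide +kernel

lemma sum1 : ∑ x ∈ E1, x = 0 := by decide +kernel

lemma sum2 : ∑ x ∈ E2, x = 0 := by decide +kernel

lemma tern_sq (P N : ℕ) (x : ZMod 127) (h : tern P N x ≠ 0) :
    tern P N x = 1 ∨ tern P N x = -1 := by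
  unfold tern at h ⊢
  split_ifs at h ⊢ <;> simp_all

lemma extreme_of {c : ZMod 127 → ℤ} (h1 : ∀ x, c x ≠ 0 → c x = 1 ∨ c x = -1)
    (h2 : ∀ t, ∑ x, c x * c (x - t) = if t = 0 then 64 else 0)
    (h3 : (univ.filter fun x => c x ≠ 0).card = 64) :
    IsExtreme (univ.filter fun x => c x ≠ 0) := by
  refine ⟨fun x => (c x : ℂ), fun x hx => ?_, fun x hx => ?_, fun t => ?_⟩
  · rw [mem_filter] at hx
    rcases h1 x hx.2 with h | h <;> simp [h]
  · rw [mem_filter] at hx
    simp only [mem_univ, true_and, not_not] at hx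
    simp [hx]
  · have h : (∑ x, (c x : ℂ) * (starRingEnd ℂ) (c (x - t) : ℂ)) =
        ((∑ x, c x * c (x - t) : ℤ) : ℂ) := by
      push_cast
      exact Finset.sum_congr rfl fun x _ => by rw [map_intCast]
    rw [h, h2, h3]
    split_ifs <;> simp

lemma extreme1 : IsExtreme E1 := extreme_of (fun x => tern_sq _ _ x) corr1 card1

lemma extreme2 : IsExtreme E2 := extreme_of (fun x => tern_sq _ _ x) corr2 card2

lemma not_mul : ∀ a : ZMod 127, a ≠ 0 → ∃ x, c1 x ≠ 0 ∧ c2 (a * x) = 0 := by
  decide +kernel

instance : Fact (Nat.Prime 127) := ⟨by norm_num⟩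

lemma not_equivalent (a b : ZMod 127) (ha : a ≠ 0) : E2 ≠ E1.image fun x => a * x + b := by
  intro h
  have hinj : Function.Injective fun x : ZMod 127 => a * x + b := by
    intro x y hxy
    exact mul_left_cancel₀ ha (add_right_cancel hxy)
  have h1 : ∑ x ∈ E2, x = a * ∑ x ∈ E1, x + 64 * b := by
    rw [h, sum_image (fun x _ y _ hxy => hinj hxy), sum_add_distrib, ← mul_sum, sum_const, card1]
    simp
  rw [sum1, sum2, mul_zero, zero_add] at h1
  have h64 : (64 : ZMod 127) ≠ 0 := by decide
  have hb : b = 0 := (mul_eq_zero.1 h1.symm).resolve_left h64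
  obtain ⟨x, hx, hx2⟩ := not_mul a ha
  have h2 : a * x + b ∈ E2 := by
    rw [h]
    exact mem_image_of_mem _ (by simp [E1, hx])
  rw [hb, add_zero] at h2
  simp [E2, hx2] at h2

/-- There are a prime `p`, a number `n` with `1 < n < p` and two extreme subsets of `ℤ / p ℤ` with
`n` elements that are not equivalent under affine maps `x ↦ a x + b`, `a ≠ 0`. -/
theorem result : ∃ (p n : ℕ) (_ : Fact p.Prime) (E F : Finset (ZMod p)), 1 < n ∧ n < p ∧
    E.card = n ∧ F.card = n ∧ IsExtreme E ∧ IsExtreme F ∧
    ∀ a b : ZMod p, a ≠ 0 → F ≠ E.image fun x => a * x + b :=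
  ⟨127, 64, inferInstance, E1, E2, by norm_num, by norm_num, card1, card2, extreme1, extreme2,
    fun a b ha => not_equivalent a b ha⟩

end Pool.Agent.Results.MP_6d480e_an.TwoExtremeSets
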